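import Pool.Agent.K7.H48.IdealForce

/-!
# A `σ`-ideal whose generic ultrafilter is strictly Tukey below its Fubini square

Under CH there is a `σ`-ideal `I` on `ℕ` with `P(ω)/I` atomless, such that all conditions force that
the Fubini square `G · G` of the generic ultrafilter `G` is not Tukey below `G`. There is a forcing
notion which forces CH, so ZFC does not prove that `G · G ≡_T G` for all `σ`-ideals.

Idea of the proof. The ideal is the union of an increasing sequence of `ω₁` many `F_σ` ideals, and
at each stage countably many sets are promised to remain positive. If `G · G` was Tukey below `G`,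
then so was `ω^ω`, by a monotone map. As `G` is a `P`-point, this map is coded on some set in `G` by
families `𝓕 n j` of finite sets: the value at `n` is at most `j` iff the set contains a member
of `𝓕 n j`. The main lemma says that below any set `A` which is positive for an `F_σ` ideal `J` the
code can be destroyed. Choose `A' ⊆ A` positive and so thin that the promises are not affected by
putting subsets of `A'` into the ideal. If for some `g` the ideal generated by `J` and all subsets
of `A'` which contain no member of `𝓕 n (g n)` for any `n` does not contain `A'` then we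
add these sets to `J`, so no set in `G` has an image above `g`. Otherwise a diagonal argument and
compactness give a positive subset of `A'` which for some `n` contains no member of `𝓕 n j` for
any `j`, so the code does not work for it.
-/

set_option autoImplicit false

namespace Pool.Agent.Results.MP_9c8ed6_lc.ConsistentlyNotSquare

open Cardinal
open Pool.Agent.K7.H48.IC
open Pool.Agent.R906.TT (IsIdeal IsSigma Atomless Pos posPreorder gen NoNewSubsets IsUltra TukeyLe)
open Pool.Agent.Helper292.ForceCH (fnot OmegaOnePreserved CHHolds)

/-- (A) Some forcing notion forces CH. (B) CH implies that there is a `σ`-ideal `I` on `ℕ` such that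
`P(ω)/I` is atomless, and all conditions force that there are no new subsets of `ℕ`, the generic
filter `G` is an ultrafilter, and `G · G` is not Tukey below `G`. -/
theorem result :
    (∃ (P : Type) (_ : Preorder P), Nonempty P ∧
      ∀ p : P, p ∈ OmegaOnePreserved P ∧ p ∈ CHHolds P) ∧
    ((𝔠 : Cardinal.{0}) = ℵ₁ → ∃ (I : Set (Set ℕ)) (hI : IsIdeal I), IsSigma I ∧ Atomless I ∧
      letI : Preorder (Pos I) := posPreorder hI
      ∀ p : Pos I, p ∈ NoNewSubsets (Pos I) ℕ ∧ p ∈ IsUltra (gen I) ∧
        p ∈ fnot (TukeyLe (fub (gen I) (gen I)) (gen I))) := by
  refine ⟨⟨Pool.Agent.Helper292.ForceCH.Cond, inferInstance, inferInstance, fun p =>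
    ⟨Pool.Agent.Helper292.ForceCH.omegaOnePreserved p,
      Pool.Agent.Helper292.ForceCH.chHolds p⟩⟩, fun hCH => ?_⟩
  obtain ⟨s, hs⟩ := exists_surjective hCH
  obtain ⟨h, hsig⟩ := nice_chI hs
  have hI : Fact (IsIdeal (chI s)) := ⟨h.ideal⟩
  exact ⟨chI s, h.ideal, hsig, h.atomless, fun p =>
    ⟨noNew h p, gen_ultra p, not_tukeyLe h p⟩⟩

end Pool.Agent.Results.MP_9c8ed6_lc.ConsistentlyNotSquare
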